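import Pool.Agent.Mg.F6b3afb.Ge3bbf3

open Pool.Agent.MP_6b3afb_co

/-- Complete classification of the universal regular 4-polytopes of type `{3,6,3}` with toroidal
facets and vertex-figures: existence, automorphism group, finiteness and orders. -/
theorem Pool.Agent.Results.MP_6b3afb_co.Classification.result (s t u v : ℕ)
    (hs : (2 ≤ s ∧ t = 0) ∨ (1 ≤ s ∧ t = s)) (hu : (2 ≤ u ∧ v = 0) ∨ (1 ≤ u ∧ v = u)) :
    (Nonempty (Poly s t u v) ↔
      finiteOrder (s, t) (u, v) ≠ 0 ∨ ((s, t) ≠ (1, 1) ∧ (s, t) ≠ (2, 0) ∧ (u, v) ≠ (1, 1) ∧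
        (u, v) ≠ (2, 0) ∧ s((s, t), (u, v)) ≠ s((3, 0), (5, 0)))) ∧
    (Nonempty (Poly s t u v) → ∃ U : Poly s t u v, ∀ Q, Covers U Q) ∧
    ∀ U : Poly s t u v, (∀ Q, Covers U Q) →
      Nonempty ((U.P ≃o U.P) ≃* PresentedGroup (rels s t u v)) ∧
      Nat.card (U.P ≃o U.P) = finiteOrder (s, t) (u, v) ∧
      (Finite U.P ↔ finiteOrder (s, t) (u, v) ≠ 0) :=
  classification hs hu
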